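import Pool.Agent.H.MP_1611f1_gt.LG.Final
import Pool.Agent.H.MP_1611f1_gt.TP.Red

/-!
The theorem on tree plumbings.
-/

namespace Pool.Agent.H.MP_1611f1_gt.HT

open Topology Set Filter
open Pool.Agent.H.MP_1611f1_gt.G (Ended Pattern Union MTorus Detected glue_taut)
open Pool.Agent.H.MP_1611f1_gt.LG (Drilled)

/-- The pieces of the main theorem, with the admissible covectors `(x j, y j)` at their ends `j`.
* `glued`: the pieces of `LG.Good`: surface bundles minus level curves (`bundle`), products `S × S¹` minus
  the curves of a forest in fibres (`tree`), and foliated manifolds, also minus leaf curves (`form`, `leaf`).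
* `plumb`: the product `M₀ = S × S¹` minus the curves of a forest `P` in fibres, which is a plumbing (`TP.Plumb`); `S`
  has one end, and there are `N ≥ 2` strips. The curve `k` is the core of the annulus `P.ν k` at an arbitrary time `t k`;
  the removed solid torus is in the times between `t k - ε` and `t k + ε`, and curves over annuli which meet are at times whose
  distance is larger than `4 ε`. The covectors at the new ends satisfy `x k ≠ 0`, `y k ≠ 0`, and the products `x j * y j`
  (at the end of `M₀`) and `x k * y k` have the same sign for at least one new end `k`. -/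
inductive Good {M : Type} [TopologicalSpace M] {J : Type} (T : Ended M J) (x y : J → ℝ) : Prop
  | glued (h : LG.Good T x y) : Good T x y
  | plumb {S : Type} [TopologicalSpace S] [ConnectedSpace S] (old : J → Prop)
      [Unique {j // old j}] (hN : 2 ≤ Nat.card {j // ¬ old j})
      (P : TP.Plumb S {j // old j} {j // ¬ old j})
      {M₀ : Type} [TopologicalSpace M₀] [T2Space M₀] (T₀ : Ended M₀ {j // old j})
      (Mt : MTorus P.E (Homeomorph.refl S) T₀) (t : {j // ¬ old j} → ℝ) (ε : ℝ) (hε : 0 < ε)
      (hε1 : 4 * ε < 1)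
      (sep : ∀ e f, e ≠ f → (∃ z w, P.ν e z = P.ν f w) → ∀ m : ℤ, 4 * ε < |t e - t f + m|)
      (D : Drilled T₀ (fun k z => Mt.p (P.ν k (z.1, z.2.1), t k + ε * (z.2.2 + 4))) T)
      (hnew : ∀ k, ¬ old k → x k ≠ 0) (hnew' : ∀ k, ¬ old k → y k ≠ 0)
      (hk : ∃ j k, old j ∧ ¬ old k ∧ 0 < x j * y j * (x k * y k)) : Good T x y

theorem Good.detected {M : Type} [TopologicalSpace M] {J : Type} {T : Ended M J} {x y : J → ℝ}
    (h : Good T x y) : Detected T x y := by
  cases h with
  | glued h => exact h.detected
  | plumb old hN P T₀ Mt t ε hε hε1 sep D hnew hnew' hk =>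
    exact TP.plumb_detected hN P Mt t hε hε1 sep D hnew hnew' hk

/-- **Main theorem.** -/
theorem main {V : Type} {M : V → Type} [∀ v, TopologicalSpace (M v)] {J : V → Type}
    (T : ∀ v, Ended (M v) (J v)) (G : Pattern (Σ v, J v)) {Y : Type} [TopologicalSpace Y]
    (U : Union T G Y) (x y : (Σ v, J v) → ℝ)
    (hgood : ∀ v, Good (T v) (fun j => x ⟨v, j⟩) (fun j => y ⟨v, j⟩))
    (hglue : ∀ e, G.τ e ≠ e → x e = G.al e * x (G.τ e) + G.ga e * y (G.τ e) ∧
      y e = G.be e * x (G.τ e) + G.de e * y (G.τ e))
    (hfill : ∀ e, G.τ e = e → ∃ c : ℝ, c ≠ 0 ∧ x e = c * G.ga e ∧ y e = c * G.de e) :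
    ∃ F : Foliation Y, F.Taut :=
  glue_taut T G U x y (fun v => (hgood v).detected) hglue hfill

end Pool.Agent.H.MP_1611f1_gt.HT
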